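import Pool.Agent.Helper91.Crit.Full

/-!
# Q1 of MP_6a3db1_co: every `k`-block with `k ≥ 14 m ^ 2 + 152 m + 95` has a minor `M(K_m)`
-/

set_option autoImplicit false

open Pool.Agent.Helper35.Cq

namespace Pool.Agent.Results.MP_6a3db1_co.CliqueMinorsInBlocks

/-- The matroid `M` is represented over the field `F` by the vectors `v x`, `x ∈ M.E`: a set of
elements is independent in `M` if and only if the corresponding vectors are linearly
independent. -/
def Represents (F : Type*) [Field F] {V : Type*} [AddCommGroup V] [Module F V] {α : Type*}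
    (v : α → V) (M : Matroid α) : Prop :=
  ∀ I ⊆ M.E, M.Indep I ↔ LinearIndepOn F v I

/-- The critical exponent of the vectors `v x`, `x ∈ E`, of `V`: the least `k` such that some `k`
hyperplanes of `V` have an intersection which contains no `v x`. -/
noncomputable def critExp (F : Type*) [Field F] {V : Type*} [AddCommGroup V] [Module F V]
    {α : Type*} (v : α → V) (E : Set α) : ℕ :=
  sInf {k : ℕ | ∃ H : Fin k → Submodule F V, (∀ i, IsCoatom (H i)) ∧ ∀ x ∈ E, ∃ i, v x ∉ H i}

/-- `M` is a `k`-block over `F`: it has no loops, and it is represented by vectors of some space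
`F ^ n` whose critical exponent is greater than `k`. -/
def IsBlock (F : Type*) [Field F] (k : ℕ) {α : Type*} (M : Matroid α) : Prop :=
  M.Loopless ∧ ∃ (n : ℕ) (v : α → (Fin n → F)), Represents F v M ∧ k < critExp F v M.E

/-- `N` is isomorphic to the cycle matroid `M(K_m)` of the complete graph on `m` vertices: there is
a bijection from the edges of `K_m` to the elements of `N` such that a set of elements of `N` is
independent if and only if the corresponding edges form a forest. -/
def IsCliqueMatroid (m : ℕ) {α : Type*} (N : Matroid α) : Prop :=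
  ∃ f : (⊤ : SimpleGraph (Fin m)).edgeSet → α, Function.Injective f ∧ Set.range f = N.E ∧
    ∀ A, N.Indep (f '' A) ↔ (SimpleGraph.fromEdgeSet (Subtype.val '' A)).IsAcyclic

/-- **Every `k`-block over `GF(q)` with `k ≥ 14 m ^ 2 + 152 m + 95` has a minor isomorphic to
`M(K_m)`, for every prime power `q`.** -/
theorem result (m k : ℕ) (hk : 14 * m ^ 2 + 152 * m + 95 ≤ k) (F : Type*) [Field F] [Finite F]
    {α : Type*} (M : Matroid α) (hM : IsBlock F k M) :
    ∃ N : Matroid α, N ≤m M ∧ IsCliqueMatroid m N := by
  classical
  obtain ⟨hloop, n, v, hv, hcrit⟩ := hM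
  by_contra hno
  have hE : ¬ HasClique F m (v '' M.E) := by
    intro h
    obtain ⟨N, hN, hf⟩ := Pool.Agent.Helper91.Crit.exists_minor M v hv m h
    exact hno ⟨N, hN, hf⟩
  have hfin : (v '' M.E).Finite := Set.toFinite _
  have h0 : ∀ x ∈ M.E, v x ≠ 0 := by
    intro x hx h
    have h1 : M.Indep {x} := Matroid.subsingleton_indep Set.subsingleton_singleton
      (Set.singleton_subset_iff.mpr hx)
    have h2 := (hv {x} (Set.singleton_subset_iff.mpr hx)).mp h1
    have h3 := h2.ne_zero (Set.mem_singleton x)
    exact h3 h
  obtain ⟨φ, hφ⟩ := Pool.Agent.Helper91.Crit.exists_avoid_of_not_hasClique m (F := F)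
    hfin.toFinset (by
      intro x hx
      rw [Set.Finite.mem_toFinset] at hx
      obtain ⟨a, ha, rfl⟩ := hx
      exact h0 a ha) (by rwa [Set.Finite.coe_toFinset]) hk (fun _ => 0)
  have hle : critExp F v M.E ≤ k := by
    by_cases hne : M.E.Nonempty
    · obtain ⟨x0, hx0⟩ := hne
      apply Nat.sInf_le
      have h1 : φ (v x0) ≠ 0 := hφ _ (by
        rw [Set.Finite.mem_toFinset]
        exact ⟨x0, hx0, rfl⟩)
      have h2 : ∃ i0, φ (v x0) i0 ≠ 0 := by
        by_contra h
        push Not at h
        exact h1 (funext h)
      obtain ⟨i0, hi0⟩ := h2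
      set ψ : Fin k → ((Fin n → F) →ₗ[F] F) := fun i =>
        if (LinearMap.proj i).comp φ = 0 then (LinearMap.proj i0).comp φ
        else (LinearMap.proj i).comp φ with hψ
      have hψ0 : ∀ i, ψ i ≠ 0 := by
        intro i
        rw [hψ]
        dsimp only
        split_ifs with h
        · intro h3
          apply hi0
          have := LinearMap.congr_fun h3 (v x0)
          simpa using this
        · exact h
      refine ⟨fun i => LinearMap.ker (ψ i), ?_, ?_⟩
      · intro i
        exact LinearMap.isCoatom_ker_of_surjective (LinearMap.surjective (hψ0 i))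
      · intro x hx
        have h3 : φ (v x) ≠ 0 := hφ _ (by
          rw [Set.Finite.mem_toFinset]
          exact ⟨x, hx, rfl⟩)
        have h4 : ∃ i, φ (v x) i ≠ 0 := by
          by_contra h
          push Not at h
          exact h3 (funext h)
        obtain ⟨i, hi⟩ := h4
        refine ⟨i, ?_⟩
        rw [LinearMap.mem_ker, hψ]
        dsimp only
        rw [if_neg]
        · exact hi
        · intro h5
          apply hi
          have := LinearMap.congr_fun h5 (v x)
          simpa using this
    · rw [Set.not_nonempty_iff_eq_empty] at hne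
      have h1 : critExp F v M.E ≤ 0 := by
        apply Nat.sInf_le
        refine ⟨fun i => i.elim0, fun i => i.elim0, ?_⟩
        intro x hx
        rw [hne] at hx
        exact absurd hx (Set.notMem_empty x)
      exact h1.trans (Nat.zero_le k)
  omega

end Pool.Agent.Results.MP_6a3db1_co.CliqueMinorsInBlocks
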