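import Pool.Agent.Helper35.Cq.Final

/-!
# Density and critical exponent of matroids without `M(K_t)`-minor, uniformly in the field
-/

set_option autoImplicit false

open Finset Module
open Pool.Agent.Helper35.Cq

namespace Pool.Agent.Results.MP_6a3db1_co.UniformDensity

/-- A matroid represented over `F = GF(q)` by a finite set `E` of nonzero vectors that has no minor
`M(K_t)` has at most `q ^ C(t) * r(E)` elements, `C(t) = 7 t ^ 2 + 76 t + 42`. Hence `E` is not a
`k`-block as soon as `q ^ C(t) * r(E) < q ^ k`. -/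
theorem result (t : ℕ) {F : Type*} [Field F] [Fintype F] {V : Type*} [AddCommGroup V] [Module F V]
    (E : Finset V) (h0 : ∀ x ∈ E, x ≠ 0) (hE : ¬ HasClique F t (E : Set V)) :
    E.card ≤ Fintype.card F ^ (7 * t ^ 2 + 76 * t + 42) *
      Module.finrank F (Submodule.span F (E : Set V)) ∧
    ∀ k : ℕ, Fintype.card F ^ (7 * t ^ 2 + 76 * t + 42) *
        Module.finrank F (Submodule.span F (E : Set V)) < Fintype.card F ^ k →
      ∃ φ : V →ₗ[F] (Fin k → F), ∀ x ∈ E, φ x ≠ 0 := by
  have h1 := density_all t E h0 hE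
  exact ⟨h1, fun k hk => exists_avoid k E h0 (lt_of_le_of_lt h1 hk)⟩

end Pool.Agent.Results.MP_6a3db1_co.UniformDensity
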